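import Pool.Agent.GPL.Mn

/-! Cyclic quotient singularities in dimension `d` whose minimal log discrepancy is less than `1`, but
doubly exponentially close to `1`. -/

namespace Pool.Agent.Results.MP_21ca32_ag.DoublyExponentialGap

open Pool.Agent.GAP Pool.Agent.GPL

universe u w

/-- Let `d ≥ 2`, let `S` be the product of the first `d - 2` Sylvester numbers `2, 3, 7, 43, ...` and
`r = S ^ 4 + S ^ 3 + S`. There are weights `a_1, ..., a_d` such that over every algebraically closed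
field of characteristic `0` the group of the `r`-th roots of unity acts on the affine space by
`x_i ↦ ζ ^ (a_i) x_i` freely in codimension one, the quotient `X` has a `ℚ`-Cartier canonical divisor
at the image `P` of the origin, and `mld (X ∋ P) = 1 - 1 / r`. -/
theorem result (d : ℕ) (hd : 2 ≤ d) :
    ∃ (r : ℕ) (a : Fin d → ℕ), r = S (d - 2) ^ 4 + S (d - 2) ^ 3 + S (d - 2) ∧
      (3 ≤ d → 2 ^ (2 ^ (d - 1)) ≤ r) ∧
      ∀ (k : Type u) [Field k] [IsAlgClosed k] [CharZero k],
        (∀ ζ : k, ζ ^ r = 1 → ζ ≠ 1 → ∃ i j, i ≠ j ∧ ζ ^ a i ≠ 1 ∧ ζ ^ a j ≠ 1) ∧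
        ∀ (K : Type w) [Field K] [Algebra k K] [Algebra (inv k r a) K]
          [IsScalarTower k (inv k r a) K] [IsFractionRing (inv k r a) K],
          Nonempty (Canonical k K (pt k r a) d) ∧
          ∀ D : Canonical k K (pt k r a) d, D.mld = ((1 - 1 / (r : ℝ) : ℝ) : EReal) := by
  obtain ⟨e, rfl⟩ : ∃ e, d = e + 2 := ⟨d - 2, by omega⟩
  refine ⟨ord e, wt e, ?_, fun h => ?_, fun k _ _ _ => ⟨fun ζ hζ hne => ?_, ?_⟩⟩
  · simp only [Nat.add_sub_cancel]
    unfold ord R
    ring
  · have h1 : e + 2 - 1 = e + 1 := by omega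
    rw [h1]
    exact ord_ge e (by omega)
  · have h0 : ζ ≠ 0 := by
      rintro rfl
      rw [zero_pow (ord_pos e).ne'] at hζ
      exact zero_ne_one hζ
    have h1 : (Units.mk0 ζ h0) ^ ord e = 1 := by
      ext
      rw [Units.val_pow_eq_pow_val]
      exact hζ
    have h2 : Units.mk0 ζ h0 ≠ 1 := fun h => hne (congrArg Units.val h)
    have h3 : ∀ n : ℕ, (Units.mk0 ζ h0) ^ n ≠ 1 → ζ ^ n ≠ 1 := by
      intro n hn h
      apply hn
      ext
      rw [Units.val_pow_eq_pow_val]
      exact h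
    obtain ⟨h4, j, hj, h5⟩ := two_moved e (Units.mk0 ζ h0) h1 h2
    exact ⟨0, j, hj.symm, h3 _ h4, h3 _ h5⟩
  · intro K _ _ _ _ _
    exact mld_eq k (ord_pos e) (wt e) (fun ζ hζ hne => two_moved e ζ hζ hne) (coprime_wt e)
      (wt_pos e) (sum_wt e) (num e) K

end Pool.Agent.Results.MP_21ca32_ag.DoublyExponentialGap
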