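import Pool.Agent.GAP.Brg

/-! The gap theorem for the minimal log discrepancies of nondegenerate hyperquotient singularities,
in every dimension. -/

namespace Pool.Agent.Results.MP_21ca32_ag.NondegHyperquotientGap

open Pool.Agent.GAP

universe u v w

/-- Let `d` be an integer and `0 < t ≤ 1`. There is a real number `a` with `0 < a < t` such that
every nondegenerate hyperquotient singularity `X ∋ P` of dimension `d` (`X = Spec Y.A`, with
function field `K`), over any algebraically closed field of characteristic `0`, has a `ℚ`-Cartier
canonical divisor at `P` (canonical data exist), and if its minimal log discrepancy is greater than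
`a` then it is at least `t`. For `t = 1` this is the gap statement: `a`-klt implies canonical. -/
theorem result (d : ℕ) (t : ℝ) (ht0 : 0 < t) (ht1 : t ≤ 1) :
    ∃ a : ℝ, 0 < a ∧ a < t ∧
      ∀ (k : Type u) [Field k] [IsAlgClosed k] [CharZero k] (B : Type v) [CommRing B]
        [Algebra k B] (Y : Hyperquotient k (d + 1) B) (K : Type w) [Field K] [Algebra k K]
        [Algebra Y.A K] [IsScalarTower k Y.A K] [IsFractionRing Y.A K],
        Nonempty (Canonical k K Y.P d) ∧
        ∀ D : Canonical k K Y.P d, (a : EReal) < D.mld → (t : EReal) ≤ D.mld := by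
  obtain ⟨a, ha0, hat, h⟩ := gap.{u, w} d ht0 ht1
  exact ⟨a, ha0, hat, fun k _ _ _ B _ _ Y K _ _ _ _ _ => ⟨exists_canonical Y K, fun D hD =>
    h D.mld (mem_mldSet Y K D) hD⟩⟩

end Pool.Agent.Results.MP_21ca32_ag.NondegHyperquotientGap
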